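import Pool.Agent.HCYC.Geo

/-! Almost disjoint triangles (MP_a19305_co): the cyclic family (helper64). `3 m` points in three
corners; the labels are `m e + k` with `e < 3`, `k < m`; the triangles are the triples of labels
with sum `≡ -1` modulo `3 m`. -/

set_option autoImplicit false

namespace Pool.Agent.HCYC

open Pool.Agent.H42K

/-- the triples of distinct labels with sum `≡ -1` modulo `3 m` -/
def fam (m : ℕ) : Finset (Finset ℕ) :=
  ((Finset.range (3 * m)).powersetCard 3).filter (fun T => 3 * m ∣ (∑ i ∈ T, i) + 1)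

/-- the height of the points with index `k` -/
noncomputable def tau (m k : ℕ) : ℝ := 6 * (k : ℝ) + 1 - 3 * (m : ℝ)

/-- the coordinates of the point with index `k` in a corner: `1` at the corner, then
`q ^ (6 (m - k) - 1)` at the next corner and `q ^ (6 k + 1)` at the previous one -/
noncomputable def c1 (m : ℕ) (q : ℝ) (k : ℕ) : ℝ := q ^ (6 * (m - k) - 1)

noncomputable def c2 (q : ℝ) (k : ℕ) : ℝ := q ^ (6 * k + 1)

/-- value of the linear form `(a0, a1, a2, b)` at the point with index `k` of the corner `0` -/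
noncomputable def ev (m : ℕ) (q : ℝ) (a0 a1 a2 b : ℝ) (k : ℕ) : ℝ :=
  a0 + a1 * c1 m q k + a2 * c2 q k + b * tau m k

/-- value of the linear form `(a0, a1, a2, b)` at the point with label `L`: in the corner `1` the
coordinates are permuted cyclically -/
noncomputable def val (m : ℕ) (q : ℝ) (a0 a1 a2 b : ℝ) (L : ℕ) : ℝ :=
  if L / m = 0 then ev m q a0 a1 a2 b (L % m)
  else if L / m = 1 then ev m q a1 a2 a0 b (L % m)
  else ev m q a2 a0 a1 b (L % m)

/-- the point with label `L`, in the coordinates `x_0, x_1, tau, x_0 + x_1 + x_2` -/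
noncomputable def pt (m : ℕ) (q : ℝ) (L : ℕ) : Pt where
  x := if L / m = 0 then 1 else if L / m = 1 then c2 q (L % m) else c1 m q (L % m)
  y := if L / m = 0 then c1 m q (L % m) else if L / m = 1 then 1 else c2 q (L % m)
  w := tau m (L % m)
  h := 1 + c1 m q (L % m) + c2 q (L % m)

/-- the form of `Pt` which belongs to `(a0, a1, a2, b)` -/
def fm (a0 a1 a2 b : ℝ) : Pt := ⟨a0 - a2, a1 - a2, b, a2⟩

theorem ap_fm (m : ℕ) (q : ℝ) (a0 a1 a2 b : ℝ) (L : ℕ) :
    ap (fm a0 a1 a2 b) (pt m q L) = val m q a0 a1 a2 b L := by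
  unfold ap fm pt val ev
  simp only
  split_ifs <;> ring

theorem pt_pos (m : ℕ) {q : ℝ} (hq : 0 < q) (L : ℕ) : 0 < (pt m q L).h := by
  unfold pt c1 c2
  positivity

/-- separation in terms of the values -/
def SepV (m : ℕ) (q : ℝ) (S T : Finset ℕ) : Prop :=
  ∃ a0 a1 a2 b : ℝ, (∀ r ∈ S, r ∉ T → 0 < val m q a0 a1 a2 b r) ∧
    (∀ r ∈ T, r ∉ S → val m q a0 a1 a2 b r < 0) ∧
    ∀ r ∈ S, r ∈ T → val m q a0 a1 a2 b r = 0

theorem SepV.sep {m : ℕ} {q : ℝ} {S T : Finset ℕ} (h : SepV m q S T) : Sep (pt m q) S T := by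
  obtain ⟨a0, a1, a2, b, h1, h2, h3⟩ := h
  exact ⟨fm a0 a1 a2 b, fun r hr hr' => by rw [ap_fm]; exact h1 r hr hr',
    fun r hr hr' => by rw [ap_fm]; exact h2 r hr hr',
    fun r hr hr' => by rw [ap_fm]; exact h3 r hr hr'⟩

theorem SepV.symm {m : ℕ} {q : ℝ} {S T : Finset ℕ} (h : SepV m q S T) : SepV m q T S := by
  obtain ⟨a0, a1, a2, b, h1, h2, h3⟩ := h
  have hneg : ∀ L, val m q (-a0) (-a1) (-a2) (-b) L = - val m q a0 a1 a2 b L := by
    intro L
    unfold val ev
    split_ifs <;> ring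
  exact ⟨-a0, -a1, -a2, -b, fun r hr hr' => by rw [hneg]; linarith [h2 r hr hr'],
    fun r hr hr' => by rw [hneg]; linarith [h1 r hr hr'],
    fun r hr hr' => by rw [hneg]; linarith [h3 r hr' hr]⟩

end Pool.Agent.HCYC
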