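import Pool.Agent.HCYC.Geo

/-! The cyclic family: counting (MP_a19305_co). -/

set_option autoImplicit false

namespace Pool.Agent.HCYC

open Finset

/-- the third label of the triangle through two labels of the corner `e` -/
def third (m e k l : ℕ) : ℕ :=
  if k + l + 1 ≤ m then m * ((e + 2) % 3) + (m - 1 - k - l)
  else m * ((e + 1) % 3) + (2 * m - 1 - k - l)

/-- the triangle through the labels `m e + k`, `m e + l` -/
def tr (m e k l : ℕ) : Finset ℕ := {m * e + k, m * e + l, third m e k l}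

/-- the triples `(e, k, l)` with `k < l` -/
def idx (m : ℕ) : Finset (ℕ × ℕ × ℕ) :=
  (range 3 ×ˢ range m ×ˢ range m).filter (fun p => p.2.1 < p.2.2)

/-- the family -/
def F (m : ℕ) : Finset (Finset ℕ) := (idx m).image (fun p => tr m p.1 p.2.1 p.2.2)

theorem mem_F {m : ℕ} {T : Finset ℕ} :
    T ∈ F m ↔ ∃ e k l, e < 3 ∧ k < l ∧ l < m ∧ T = tr m e k l := by
  simp only [F, idx, mem_image, mem_filter, mem_product, mem_range, Prod.exists]
  constructor
  · rintro ⟨e, k, l, ⟨⟨he, hk, hl⟩, hkl⟩, rfl⟩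
    exact ⟨e, k, l, he, hkl, hl, rfl⟩
  · rintro ⟨e, k, l, he, hkl, hl, rfl⟩
    exact ⟨e, k, l, ⟨⟨he, hkl.trans hl, hl⟩, hkl⟩, rfl⟩

/-- corner and index of the third label -/
theorem third_spec {m e k l : ℕ} (_he : e < 3) (hkl : k < l) (hl : l < m) :
    (∃ r, k + l + r + 1 = m ∧ third m e k l = m * ((e + 2) % 3) + r) ∨
    (∃ r, r < m ∧ k + l + r + 1 = 2 * m ∧ third m e k l = m * ((e + 1) % 3) + r) := by
  unfold third
  split_ifs with h
  · left
    exact ⟨m - 1 - k - l, by omega, rfl⟩
  · right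
    exact ⟨2 * m - 1 - k - l, by omega, by omega, rfl⟩

theorem div_lab {m e k : ℕ} (hk : k < m) : (m * e + k) / m = e := by
  rw [Nat.mul_add_div (by omega), Nat.div_eq_of_lt hk, add_zero]

theorem mod_lab {m e k : ℕ} (hk : k < m) : (m * e + k) % m = k := by
  rw [Nat.mul_add_mod, Nat.mod_eq_of_lt hk]

theorem third_div {m e k l : ℕ} (he : e < 3) (hkl : k < l) (hl : l < m) :
    third m e k l / m ≠ e := by
  rcases third_spec he hkl hl with ⟨r, h1, h2⟩ | ⟨r, h0, h1, h2⟩
  · rw [h2, div_lab (by omega)]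
    omega
  · rw [h2, div_lab (by omega)]
    omega

theorem third_lt {m e k l : ℕ} (he : e < 3) (hkl : k < l) (hl : l < m) :
    third m e k l < 3 * m := by
  rcases third_spec he hkl hl with ⟨r, h1, h2⟩ | ⟨r, h0, h1, h2⟩
  · rw [h2]
    have h3 : (e + 2) % 3 ≤ 2 := by omega
    have := Nat.mul_le_mul_left m h3
    omega
  · rw [h2]
    have h3 : (e + 1) % 3 ≤ 2 := by omega
    have := Nat.mul_le_mul_left m h3
    omega

theorem lab_lt {m e k : ℕ} (he : e < 3) (hk : k < m) : m * e + k < 3 * m := by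
  have h3 : e ≤ 2 := by omega
  have := Nat.mul_le_mul_left m h3
  omega

theorem third_ne {m e k l : ℕ} (he : e < 3) (hkl : k < l) (hl : l < m) {j : ℕ} (hj : j < m) :
    m * e + j ≠ third m e k l := by
  intro h
  apply third_div he hkl hl
  rw [← h, div_lab hj]

theorem tr_card {m e k l : ℕ} (he : e < 3) (hkl : k < l) (hl : l < m) : (tr m e k l).card = 3 := by
  rw [Finset.card_eq_three]
  exact ⟨m * e + k, m * e + l, third m e k l, by omega, third_ne he hkl hl (hkl.trans hl),
    third_ne he hkl hl hl, rfl⟩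

theorem tr_sub {m e k l : ℕ} (he : e < 3) (hkl : k < l) (hl : l < m) :
    tr m e k l ⊆ range (3 * m) := by
  intro x hx
  simp only [tr, mem_insert, mem_singleton] at hx
  rw [mem_range]
  rcases hx with rfl | rfl | rfl
  · exact lab_lt he (hkl.trans hl)
  · exact lab_lt he hl
  · exact third_lt he hkl hl

theorem tr_sum {m e k l : ℕ} (he : e < 3) (hkl : k < l) (hl : l < m) :
    3 * m ∣ (∑ i ∈ tr m e k l, i) + 1 := by
  have h : ∑ i ∈ tr m e k l, i = (m * e + k) + ((m * e + l) + third m e k l) := by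
    unfold tr
    rw [sum_insert, sum_insert, sum_singleton]
    · simpa using third_ne he hkl hl hl
    · simp only [mem_insert, mem_singleton, not_or]
      exact ⟨by omega, third_ne he hkl hl (hkl.trans hl)⟩
  rw [h]
  rcases third_spec he hkl hl with ⟨r, h1, h2⟩ | ⟨r, h0, h1, h2⟩
  · rw [h2]
    interval_cases e
    · exact ⟨1, by omega⟩
    · exact ⟨1, by omega⟩
    · exact ⟨2, by omega⟩
  · rw [h2]
    interval_cases e
    · exact ⟨1, by omega⟩
    · exact ⟨2, by omega⟩
    · exact ⟨2, by omega⟩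

theorem F_sub {m : ℕ} : ∀ T ∈ F m, T ⊆ range (3 * m) := by
  intro T hT
  obtain ⟨e, k, l, he, hkl, hl, rfl⟩ := mem_F.1 hT
  exact tr_sub he hkl hl

theorem F_card3 {m : ℕ} : ∀ T ∈ F m, T.card = 3 := by
  intro T hT
  obtain ⟨e, k, l, he, hkl, hl, rfl⟩ := mem_F.1 hT
  exact tr_card he hkl hl

theorem F_sum {m : ℕ} : ∀ T ∈ F m, 3 * m ∣ (∑ i ∈ T, i) + 1 := by
  intro T hT
  obtain ⟨e, k, l, he, hkl, hl, rfl⟩ := mem_F.1 hT
  exact tr_sum he hkl hl

theorem exists_third {S : Finset ℕ} (hc : S.card = 3) {x y : ℕ} (hx : x ∈ S) (hy : y ∈ S)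
    (hxy : x ≠ y) : ∃ s ∈ S, S = {x, y, s} ∧ ∑ i ∈ S, i = x + y + s := by
  have h1 : ((S.erase x).erase y).card = 1 := by
    rw [card_erase_of_mem (mem_erase.2 ⟨hxy.symm, hy⟩), card_erase_of_mem hx, hc]
  obtain ⟨s, hs⟩ := card_eq_one.1 h1
  have hs' : s ∈ (S.erase x).erase y := by rw [hs]; exact mem_singleton_self s
  rw [mem_erase, mem_erase] at hs'
  have e1 : S = {x, y, s} := by
    rw [← hs, insert_erase (mem_erase.2 ⟨hxy.symm, hy⟩), insert_erase hx]
  refine ⟨s, hs'.2.2, e1, ?_⟩
  have hxs : x ∉ ({y, s} : Finset ℕ) := by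
    simp only [mem_insert, mem_singleton, not_or]
    exact ⟨hxy, fun h => hs'.2.1 h.symm⟩
  have hys : y ∉ ({s} : Finset ℕ) := by
    simp only [mem_singleton]
    exact fun h => hs'.1 h.symm
  rw [e1, sum_insert hxs, sum_insert hys, sum_singleton]
  ring

theorem F_inter {m : ℕ} : ∀ S ∈ F m, ∀ T ∈ F m, S ≠ T → (S ∩ T).card ≤ 1 := by
  intro S hS T hT hne
  by_contra hcon
  push Not at hcon
  obtain ⟨x, hx, y, hy, hxy⟩ := one_lt_card.1 hcon
  rw [mem_inter] at hx hy
  obtain ⟨s, hs, es, ss⟩ := exists_third (F_card3 S hS) hx.1 hy.1 hxy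
  obtain ⟨t, ht, et, st⟩ := exists_third (F_card3 T hT) hx.2 hy.2 hxy
  have h1 := F_sum S hS
  have h2 := F_sum T hT
  rw [ss] at h1
  rw [st] at h2
  have hs3 := mem_range.1 (F_sub S hS hs)
  have ht3 := mem_range.1 (F_sub T hT ht)
  have hst : s = t := by
    have h3 : x + y + s + 1 ≡ x + y + t + 1 [MOD 3 * m] := by
      rw [Nat.ModEq, Nat.mod_eq_zero_of_dvd h1, Nat.mod_eq_zero_of_dvd h2]
    have h4 : s ≡ t [MOD 3 * m] := by
      have h5 : (x + y + 1) + s ≡ (x + y + 1) + t [MOD 3 * m] := by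
        have e1 : x + y + s + 1 = (x + y + 1) + s := by ring
        have e2 : x + y + t + 1 = (x + y + 1) + t := by ring
        rwa [e1, e2] at h3
      exact Nat.ModEq.add_left_cancel' _ h5
    rwa [Nat.ModEq, Nat.mod_eq_of_lt hs3, Nat.mod_eq_of_lt ht3] at h4
  apply hne
  rw [es, et, hst]

theorem tr_filter {m e k l : ℕ} (he : e < 3) (hkl : k < l) (hl : l < m) :
    (tr m e k l).filter (fun L => L / m = e) = {m * e + k, m * e + l} := by
  unfold tr
  rw [filter_insert, if_pos (div_lab (hkl.trans hl)), filter_insert, if_pos (div_lab hl),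
    filter_singleton, if_neg (third_div he hkl hl)]
  rfl

theorem tr_inj {m e k l e' k' l' : ℕ} (he : e < 3) (hkl : k < l) (hl : l < m) (he' : e' < 3)
    (hkl' : k' < l') (hl' : l' < m) (h : tr m e k l = tr m e' k' l') :
    e = e' ∧ k = k' ∧ l = l' := by
  have h1 := tr_filter he hkl hl
  have h2 := tr_filter he' hkl' hl'
  have hee : e = e' := by
    by_contra hne
    -- the labels of the corner `e` are not in the corner `e'`
    have a1 : m * e + k ∈ tr m e' k' l' := by rw [← h]; simp [tr]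
    have a2 : m * e + l ∈ tr m e' k' l' := by rw [← h]; simp [tr]
    simp only [tr, mem_insert, mem_singleton] at a1 a2
    have b : ∀ j, j < m → ∀ i, i < m → m * e + j ≠ m * e' + i := by
      intro j hj i hi hh
      apply hne
      have := congrArg (fun z => z / m) hh
      simp only [div_lab hj, div_lab hi] at this
      exact this
    have c1' : m * e + k = third m e' k' l' := by
      rcases a1 with h3 | h3 | h3
      · exact absurd h3 (b k (hkl.trans hl) k' (hkl'.trans hl'))
      · exact absurd h3 (b k (hkl.trans hl) l' hl')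
      · exact h3
    have c2' : m * e + l = third m e' k' l' := by
      rcases a2 with h3 | h3 | h3
      · exact absurd h3 (b l hl k' (hkl'.trans hl'))
      · exact absurd h3 (b l hl l' hl')
      · exact h3
    omega
  subst hee
  rw [h, h2] at h1
  refine ⟨rfl, ?_⟩
  have a1 : m * e + k ∈ ({m * e + k', m * e + l'} : Finset ℕ) := by rw [h1]; simp
  have a2 : m * e + l ∈ ({m * e + k', m * e + l'} : Finset ℕ) := by rw [h1]; simp
  simp only [mem_insert, mem_singleton] at a1 a2
  omega

theorem card_pairs (m : ℕ) :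
    2 * ((range m ×ˢ range m).filter (fun p => p.1 < p.2)).card = m * (m - 1) := by
  have h1 : ((range m ×ˢ range m).filter (fun p => p.1 < p.2)).card = ∑ l ∈ range m, l := by
    rw [card_filter, sum_product_right]
    apply sum_congr rfl
    intro l hl
    rw [← card_filter]
    have : (range m).filter (fun k => k < l) = range l := by
      ext k
      simp only [mem_filter, mem_range] at hl ⊢
      constructor
      · exact fun h => h.2
      · exact fun h => ⟨h.trans hl, h⟩
    rw [this, card_range]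
  rw [h1, mul_comm, sum_range_id_mul_two]

theorem card_F (m : ℕ) : 2 * (F m).card = 3 * m * (m - 1) := by
  have h1 : (F m).card = (idx m).card := by
    unfold F
    rw [card_image_of_injOn]
    intro p hp p' hp' h
    obtain ⟨e, k, l⟩ := p
    obtain ⟨e', k', l'⟩ := p'
    simp only [idx, coe_filter, Set.mem_ofPred_eq, mem_product, mem_range] at hp hp'
    obtain ⟨h2, h3, h4⟩ := tr_inj hp.1.1 hp.2 hp.1.2.2 hp'.1.1 hp'.2 hp'.1.2.2 h
    rw [h2, h3, h4]
  have h2 : (idx m).card = 3 * ((range m ×ˢ range m).filter (fun p => p.1 < p.2)).card := by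
    have : idx m = range 3 ×ˢ ((range m ×ˢ range m).filter (fun p => p.1 < p.2)) := by
      ext ⟨e, k, l⟩
      simp only [idx, mem_filter, mem_product, mem_range]
      tauto
    rw [this, card_product, card_range]
  have h3 := card_pairs m
  rw [h1, h2]
  calc 2 * (3 * ((range m ×ˢ range m).filter (fun p => p.1 < p.2)).card)
      = 3 * (2 * ((range m ×ˢ range m).filter (fun p => p.1 < p.2)).card) := by ring
    _ = 3 * (m * (m - 1)) := by rw [h3]
    _ = 3 * m * (m - 1) := by ring

end Pool.Agent.HCYC
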