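import Pool.Agent.HCYC.Nd

/-! The cyclic family: the final statements (MP_a19305_co). -/

set_option autoImplicit false

namespace Pool.Agent.HCYC

open Pool.Agent.H42K Filter Topology

/-- two different triangles of an almost disjoint family have no common side -/
theorem upper_aux {P : Finset E3} {F : Finset (Finset E3)} (h : IsAlmostDisjointFamily P F) :
    3 * F.card ≤ P.card.choose 2 := by
  classical
  have hdis : (F : Set (Finset E3)).PairwiseDisjoint (fun t => t.powersetCard 2) := by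
    intro s hs t ht hne
    rw [Function.onFun, Finset.disjoint_left]
    intro e hes het
    rw [Finset.mem_powersetCard] at hes het
    obtain ⟨x, y, hxy, rfl⟩ := Finset.card_eq_two.1 hes.2
    have hxs : x ∈ s := hes.1 (by simp)
    have hys : y ∈ s := hes.1 (by simp)
    have hxt : x ∈ t := het.1 (by simp)
    have hyt : y ∈ t := het.1 (by simp)
    have m : ∀ z : E3, ∀ u : Finset E3, z ∈ u → z ∈ tri u := fun z u hz =>
      subset_convexHull ℝ _ (Finset.mem_coe.2 hz)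
    rcases h.2 s hs t ht hne with hd | ⟨v, -, -, hv⟩
    · exact Set.disjoint_left.1 hd (m x s hxs) (m x t hxt)
    · have h1 : x ∈ tri s ∩ tri t := ⟨m x s hxs, m x t hxt⟩
      have h2 : y ∈ tri s ∩ tri t := ⟨m y s hys, m y t hyt⟩
      rw [hv] at h1 h2
      exact hxy (by rw [Set.mem_singleton_iff.1 h1, Set.mem_singleton_iff.1 h2])
  have hsub : F.biUnion (fun t => t.powersetCard 2) ⊆ P.powersetCard 2 := by
    intro e he
    obtain ⟨t, ht, het⟩ := Finset.mem_biUnion.1 he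
    rw [Finset.mem_powersetCard] at het ⊢
    exact ⟨het.1.trans (h.1 t ht).1, het.2⟩
  have hcard : (F.biUnion (fun t => t.powersetCard 2)).card = 3 * F.card := by
    rw [Finset.card_biUnion hdis]
    have : ∀ t ∈ F, (t.powersetCard 2).card = 3 := by
      intro t ht
      rw [Finset.card_powersetCard, (h.1 t ht).2.1]
      rfl
    rw [Finset.sum_congr rfl this, Finset.sum_const, smul_eq_mul, mul_comm]
  calc 3 * F.card = _ := hcard.symm
    _ ≤ (P.powersetCard 2).card := Finset.card_le_card hsub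
    _ = _ := Finset.card_powersetCard 2 P

/-- the edge counting bound -/
theorem T_upper (n : ℕ) : 6 * T n ≤ n * (n - 1) := by
  obtain ⟨P, hP, F, hF, hk⟩ := T_mem n
  have h1 := upper_aux hF
  rw [hP, hk] at h1
  have h3 : n.choose 2 * 2 = n * (n - 1) := by
    rw [Nat.choose_two_right, Nat.div_mul_cancel]
    exact (Nat.even_mul_pred_self n).two_dvd
  omega

theorem T_upper_real (n : ℕ) : (T n : ℝ) ≤ (n : ℝ) * ((n : ℝ) - 1) / 6 := by
  have h := T_upper n
  rcases Nat.eq_zero_or_pos n with rfl | hn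
  · have : T 0 = 0 := by omega
    rw [this]; simp
  · have h1 : ((n - 1 : ℕ) : ℝ) = (n : ℝ) - 1 := by
      rw [Nat.cast_sub hn, Nat.cast_one]
    have h2 : (6 : ℝ) * (T n : ℝ) ≤ (n : ℝ) * ((n - 1 : ℕ) : ℝ) := by exact_mod_cast h
    rw [h1] at h2
    linarith

/-- the lower bound for all `n`, from the one for the multiples of three -/
theorem lower_of (H : ∀ m : ℕ, 3 * m * (m - 1) ≤ 2 * T (3 * m)) (n : ℕ) (hn : 2 ≤ n) :
    ((n : ℝ) - 2) * ((n : ℝ) - 5) / 6 ≤ (T n : ℝ) := by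
  obtain ⟨m, s, hs, rfl⟩ : ∃ m s, s ≤ 2 ∧ n = 3 * m + s :=
    ⟨n / 3, n % 3, by omega, (Nat.div_add_mod n 3).symm⟩
  have h1 := H m
  have h2 : T (3 * m) ≤ T (3 * m + s) := T_mono (Nat.le_add_right _ _)
  have h3 : (T (3 * m) : ℝ) ≤ (T (3 * m + s) : ℝ) := by exact_mod_cast h2
  have hs2 : (s : ℝ) ≤ 2 := by exact_mod_cast hs
  have hs0 : (0 : ℝ) ≤ s := by positivity
  rcases Nat.eq_zero_or_pos m with rfl | hm
  · have : s = 2 := by omega
    subst this
    have h0 : (0 : ℝ) ≤ (T (3 * 0 + 2) : ℝ) := by positivity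
    push_cast at h0 ⊢
    norm_num at h0 ⊢
  · have h4 : ((m - 1 : ℕ) : ℝ) = (m : ℝ) - 1 := by rw [Nat.cast_sub hm, Nat.cast_one]
    have h5 : 3 * (m : ℝ) * ((m : ℝ) - 1) ≤ 2 * (T (3 * m) : ℝ) := by
      rw [← h4]; exact_mod_cast h1
    have hm1 : (1 : ℝ) ≤ m := by exact_mod_cast hm
    push_cast
    nlinarith [mul_nonneg (sub_nonneg.2 hs2) (by linarith : (0 : ℝ) ≤ 6 * (m : ℝ) + s - 5)]

/-- the lower bound gives the limit -/
theorem tendsto_of (H : ∀ n : ℕ, 2 ≤ n → ((n : ℝ) - 2) * ((n : ℝ) - 5) / 6 ≤ (T n : ℝ)) :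
    Tendsto (fun n : ℕ => (T n : ℝ) / (n : ℝ) ^ 2) atTop (𝓝 (1 / 6)) := by
  have hinv : Tendsto (fun n : ℕ => (1 : ℝ) / (n : ℝ)) atTop (𝓝 0) :=
    tendsto_one_div_atTop_nhds_zero_nat
  have hlo : Tendsto (fun n : ℕ => (1 - 2 * (1 / (n : ℝ))) * (1 - 5 * (1 / (n : ℝ))) / 6) atTop
      (𝓝 (1 / 6)) := by
    have h1 : Tendsto (fun n : ℕ => 1 - 2 * (1 / (n : ℝ))) atTop (𝓝 (1 - 2 * 0)) :=
      tendsto_const_nhds.sub (hinv.const_mul 2)
    have h2 : Tendsto (fun n : ℕ => 1 - 5 * (1 / (n : ℝ))) atTop (𝓝 (1 - 5 * 0)) :=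
      tendsto_const_nhds.sub (hinv.const_mul 5)
    have h3 := (h1.mul h2).div_const 6
    simpa using h3
  refine tendsto_of_tendsto_of_tendsto_of_le_of_le' hlo tendsto_const_nhds ?_ ?_
  · filter_upwards [eventually_ge_atTop 2] with n hn
    have hn0 : (0 : ℝ) < n := by
      have : 0 < n := by omega
      exact_mod_cast this
    rw [le_div_iff₀ (by positivity)]
    refine le_trans (le_of_eq ?_) (H n hn)
    field_simp
  · filter_upwards [eventually_ge_atTop 1] with n hn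
    have hn0 : (0 : ℝ) < n := by exact_mod_cast hn
    rw [div_le_iff₀ (by positivity)]
    refine (T_upper_real n).trans ?_
    nlinarith

/-- everything, from the separation of any two triangles for a small `q` -/
theorem final_of (H : ∀ m : ℕ, 2 ≤ m → ∃ q : ℝ, Sm m q ∧
      ∀ S ∈ F m, ∀ T ∈ F m, S ≠ T → SepV m q S T) :
    (∀ n : ℕ, IsGreatest (sizes n) (T n)) ∧
    (∀ n : ℕ, 2 ≤ n → ((n : ℝ) - 2) * ((n : ℝ) - 5) / 6 ≤ (T n : ℝ)) ∧
    (∀ n : ℕ, (T n : ℝ) ≤ (n : ℝ) * ((n : ℝ) - 1) / 6) ∧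
    (∀ m : ℕ, 3 * m * (m - 1) ≤ 2 * T (3 * m)) ∧
    Tendsto (fun n : ℕ => (T n : ℝ) / (n : ℝ) ^ 2) atTop (𝓝 (1 / 6)) := by
  have h0 : ∀ m : ℕ, 3 * m * (m - 1) ≤ 2 * T (3 * m) := by
    intro m
    rcases Nat.lt_or_ge m 2 with h | h
    · interval_cases m <;> simp
    · obtain ⟨q, hq, hs⟩ := H m h
      exact T_of_sep hq hs
  exact ⟨T_isGreatest, lower_of h0, T_upper_real, h0, tendsto_of (lower_of h0)⟩

end Pool.Agent.HCYC
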