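import Pool.Agent.H42K.Geo

/-! Almost disjoint triangles (MP_a19305_co): from homogeneous coordinates to Euclidean space,
general version (for the cyclic family). -/

set_option autoImplicit false

namespace Pool.Agent.HCYC

open Pool.Agent.H42K

/-- `n` points in homogeneous coordinates (`h` is the positive weight) and a family of triples with
separating linear forms -/
structure CfgC (n : ℕ) (P : ℕ → Pt) (F : Finset (Finset ℕ)) : Prop where
  sub : ∀ T ∈ F, T ⊆ Finset.range n
  card : ∀ T ∈ F, T.card = 3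
  inter : ∀ S ∈ F, ∀ T ∈ F, S ≠ T → (S ∩ T).card ≤ 1
  sep : ∀ S ∈ F, ∀ T ∈ F, S ≠ T → Sep P S T
  nd : ∀ T ∈ F, ∀ k ∈ T, ∃ f : Pt, ap f (P k) = 0 ∧ ∀ t ∈ T, t ≠ k → 0 < ap f (P t)
  pos : ∀ k < n, 0 < (P k).h
  inj : ∀ k < n, ∀ l < n, k ≠ l → ∃ f : Pt, ap f (P k) = 0 ∧ ap f (P l) ≠ 0

/-- every configuration gives an almost disjoint family of triangles -/
theorem CfgC.mem_sizes {n : ℕ} {P : ℕ → Pt} {F : Finset (Finset ℕ)}
    (h : CfgC n P F) : F.card ∈ sizes n := by
  classical
  -- injectivity
  have hinj : ∀ k < n, ∀ l < n, geoPt P k = geoPt P l → k = l := by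
    intro k hk l hl e
    by_contra hkl
    obtain ⟨f, f0, f1⟩ := h.inj k hk l hl hkl
    apply f1
    have e1 := geoLin_geoPt f P (h.pos k hk)
    have e2 := geoLin_geoPt f P (h.pos l hl)
    rw [f0, zero_div] at e1
    rw [← e, e1] at e2
    have h0 : ap f (P l) / (P l).h = 0 := e2.symm
    rcases div_eq_zero_iff.1 h0 with h1 | h1
    · exact h1
    · exact absurd h1 (h.pos l hl).ne'
  have hinjS : ∀ S ∈ F, Set.InjOn (geoPt P) (S : Set ℕ) := by
    intro S hS a ha b hb e
    exact hinj a (Finset.mem_range.1 (h.sub S hS ha)) b (Finset.mem_range.1 (h.sub S hS hb)) e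
  refine ⟨(Finset.range n).image (geoPt P), ?_, F.image (fun S => S.image (geoPt P)), ⟨?_, ?_⟩, ?_⟩
  · rw [Finset.card_image_of_injOn, Finset.card_range]
    intro a ha b hb e
    exact hinj a (by simpa using ha) b (by simpa using hb) e
  · -- triangles
    intro t ht
    obtain ⟨S, hS, rfl⟩ := Finset.mem_image.1 ht
    refine ⟨Finset.image_subset_image (h.sub S hS), ?_, ?_⟩
    · rw [Finset.card_image_of_injOn (hinjS S hS), h.card S hS]
    · obtain ⟨a, b, c, hab, hac, hbc, rfl⟩ := Finset.card_eq_three.1 (h.card S hS)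
      have hmem : ∀ k ∈ ({a, b, c} : Finset ℕ), k < n := fun k hk =>
        Finset.mem_range.1 (h.sub _ hS hk)
      have haS : a ∈ ({a, b, c} : Finset ℕ) := by simp
      have hbS : b ∈ ({a, b, c} : Finset ℕ) := by simp
      have hcS : c ∈ ({a, b, c} : Finset ℕ) := by simp
      intro hcol
      have hcol' : Collinear ℝ ({geoPt P a, geoPt P b, geoPt P c} : Set E3) := by
        simpa using hcol
      -- the middle one
      have key : ∀ x y z : ℕ, x ∈ ({a, b, c} : Finset ℕ) → y ∈ ({a, b, c} : Finset ℕ) →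
          z ∈ ({a, b, c} : Finset ℕ) → x ≠ y → z ≠ y →
          ¬ Wbtw ℝ (geoPt P x) (geoPt P y) (geoPt P z) := by
        intro x y z hx hy hz hxy hzy hw
        obtain ⟨f, f0, f1⟩ := h.nd _ hS y hy
        have hx' := f1 x hx hxy
        have hz' := f1 z hz hzy
        have e1 := geoLin_geoPt f P (h.pos x (hmem x hx))
        have e2 := geoLin_geoPt f P (h.pos y (hmem y hy))
        have e3 := geoLin_geoPt f P (h.pos z (hmem z hz))
        have q1 : 0 < geoLin f (geoPt P x) + f.h := by
          rw [e1]; exact div_pos hx' (h.pos x (hmem x hx))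
        have q3 : 0 < geoLin f (geoPt P z) + f.h := by
          rw [e3]; exact div_pos hz' (h.pos z (hmem z hz))
        have q2 := geo_wbtw hw (geoLin f) f.h q1 q3
        rw [e2, f0, zero_div] at q2
        exact lt_irrefl _ q2
      rcases hcol'.wbtw_or_wbtw_or_wbtw with hw | hw | hw
      · exact key a b c haS hbS hcS hab hbc.symm hw
      · exact key b c a hbS hcS haS hbc hac hw
      · exact key c a b hcS haS hbS hac.symm hab.symm hw
  · -- two triangles
    intro s hs t ht hst
    obtain ⟨S, hS, rfl⟩ := Finset.mem_image.1 hs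
    obtain ⟨T', hT, rfl⟩ := Finset.mem_image.1 ht
    have hne : S ≠ T' := fun e => hst (by rw [e])
    have hSn : ∀ k ∈ S, k < n := fun k hk => Finset.mem_range.1 (h.sub S hS hk)
    have hTn : ∀ k ∈ T', k < n := fun k hk => Finset.mem_range.1 (h.sub T' hT hk)
    obtain ⟨f, fS, fT, f0⟩ := h.sep S hS T' hT hne
    have hcard := h.inter S hS T' hT hne
    have hz : ∃ z : E3, ∀ k, k ∈ S → k ∈ T' → geoPt P k = z := by
      rcases Nat.eq_zero_or_pos (S ∩ T').card with h0 | h0
      · refine ⟨0, fun k h1 h2 => ?_⟩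
        rw [Finset.card_eq_zero] at h0
        have : k ∈ S ∩ T' := Finset.mem_inter.2 ⟨h1, h2⟩
        rw [h0] at this
        exact absurd this (Finset.notMem_empty k)
      · obtain ⟨m, hm⟩ := Finset.card_pos.1 h0
        refine ⟨geoPt P m, fun k h1 h2 => ?_⟩
        have hk : k ∈ S ∩ T' := Finset.mem_inter.2 ⟨h1, h2⟩
        rw [Finset.card_le_one.1 hcard k hk m hm]
    obtain ⟨z, hz⟩ := hz
    -- values
    have vS : ∀ k ∈ S, 0 ≤ geoLin f (geoPt P k) + f.h := by
      intro k hk
      rw [geoLin_geoPt f P (h.pos k (hSn k hk))]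
      by_cases hkT : k ∈ T'
      · rw [f0 k hk hkT, zero_div]
      · exact (div_pos (fS k hk hkT) (h.pos k (hSn k hk))).le
    have vT : ∀ k ∈ T', geoLin f (geoPt P k) + f.h ≤ 0 := by
      intro k hk
      rw [geoLin_geoPt f P (h.pos k (hTn k hk))]
      by_cases hkS : k ∈ S
      · rw [f0 k hkS hk, zero_div]
      · exact (div_neg_of_neg_of_pos (fT k hk hkS) (h.pos k (hTn k hk))).le
    have zS : ∀ k ∈ S, geoLin f (geoPt P k) + f.h = 0 → geoPt P k = z := by
      intro k hk e
      by_cases hkT : k ∈ T'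
      · exact hz k hk hkT
      · exfalso
        rw [geoLin_geoPt f P (h.pos k (hSn k hk))] at e
        exact (div_pos (fS k hk hkT) (h.pos k (hSn k hk))).ne' e
    have zT : ∀ k ∈ T', geoLin f (geoPt P k) + f.h = 0 → geoPt P k = z := by
      intro k hk e
      by_cases hkS : k ∈ S
      · exact hz k hkS hk
      · exfalso
        rw [geoLin_geoPt f P (h.pos k (hTn k hk))] at e
        exact (div_neg_of_neg_of_pos (fT k hk hkS) (h.pos k (hTn k hk))).ne e
    -- sign of the function on the hulls
    have signS : ∀ x ∈ tri (S.image (geoPt P)), 0 ≤ geoLin f x + f.h := by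
      intro x hx
      unfold tri at hx
      rw [Finset.mem_convexHull'] at hx
      obtain ⟨w, hw0, hw1, rfl⟩ := hx
      have e1 : geoLin f (∑ v ∈ S.image (geoPt P), w v • v) + f.h =
          ∑ v ∈ S.image (geoPt P), w v * (geoLin f v + f.h) := by
        have e2 : ∑ v ∈ S.image (geoPt P), w v * (geoLin f v + f.h) =
            ∑ v ∈ S.image (geoPt P), (w v * geoLin f v + w v * f.h) := by
          apply Finset.sum_congr rfl; intro v _; ring
        rw [e2, Finset.sum_add_distrib, ← Finset.sum_mul, hw1, one_mul, map_sum]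
        congr 1
        apply Finset.sum_congr rfl
        intro v _
        rw [map_smul, smul_eq_mul]
      rw [e1]
      apply Finset.sum_nonneg
      intro v hv
      obtain ⟨k, hk, rfl⟩ := Finset.mem_image.1 hv
      exact mul_nonneg (hw0 _ hv) (vS k hk)
    have signT : ∀ x ∈ tri (T'.image (geoPt P)), geoLin f x + f.h ≤ 0 := by
      intro x hx
      unfold tri at hx
      rw [Finset.mem_convexHull'] at hx
      obtain ⟨w, hw0, hw1, rfl⟩ := hx
      have e1 : geoLin f (∑ v ∈ T'.image (geoPt P), w v • v) + f.h =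
          ∑ v ∈ T'.image (geoPt P), w v * (geoLin f v + f.h) := by
        have e2 : ∑ v ∈ T'.image (geoPt P), w v * (geoLin f v + f.h) =
            ∑ v ∈ T'.image (geoPt P), (w v * geoLin f v + w v * f.h) := by
          apply Finset.sum_congr rfl; intro v _; ring
        rw [e2, Finset.sum_add_distrib, ← Finset.sum_mul, hw1, one_mul, map_sum]
        congr 1
        apply Finset.sum_congr rfl
        intro v _
        rw [map_smul, smul_eq_mul]
      rw [e1]
      apply Finset.sum_nonpos
      intro v hv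
      obtain ⟨k, hk, rfl⟩ := Finset.mem_image.1 hv
      exact mul_nonpos_of_nonneg_of_nonpos (hw0 _ hv) (vT k hk)
    have main : ∀ x, x ∈ tri (S.image (geoPt P)) → x ∈ tri (T'.image (geoPt P)) →
        x = z ∧ z ∈ S.image (geoPt P) ∧ z ∈ T'.image (geoPt P) := by
      intro x hxS hxT
      have h1 := signS x hxS
      have h2 := signT x hxT
      have r1 := geo_face (s := S.image (geoPt P)) (geoLin f) f.h
        (fun v hv => by
          obtain ⟨k, hk, rfl⟩ := Finset.mem_image.1 hv
          exact vS k hk) hxS h2 z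
        (fun v hv => by
          obtain ⟨k, hk, rfl⟩ := Finset.mem_image.1 hv
          exact zS k hk)
      have r2 := geo_face (s := T'.image (geoPt P)) (-(geoLin f)) (-f.h)
        (fun v hv => by
          obtain ⟨k, hk, rfl⟩ := Finset.mem_image.1 hv
          have := vT k hk
          rw [LinearMap.neg_apply]
          linarith) hxT (by rw [LinearMap.neg_apply]; linarith) z
        (fun v hv e => by
          obtain ⟨k, hk, rfl⟩ := Finset.mem_image.1 hv
          rw [LinearMap.neg_apply] at e
          exact zT k hk (by linarith))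
      exact ⟨r1.1, r1.2, r2.2⟩
    by_cases hd : Disjoint (tri (S.image (geoPt P))) (tri (T'.image (geoPt P)))
    · exact Or.inl hd
    · right
      rw [Set.not_disjoint_iff] at hd
      obtain ⟨v, hvs, hvt⟩ := hd
      obtain ⟨e, hzS, hzT⟩ := main v hvs hvt
      refine ⟨z, hzS, hzT, ?_⟩
      rw [e] at hvs hvt
      exact Set.eq_singleton_iff_unique_mem.2 ⟨⟨hvs, hvt⟩, fun y hy => (main y hy.1 hy.2).1⟩
  · rw [Finset.card_image_of_injOn]
    intro S hS T' hT e
    have hS' : S ∈ F := hS
    have hT' : T' ∈ F := hT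
    have e' : S.image (geoPt P) = T'.image (geoPt P) := e
    ext k
    constructor
    · intro hk
      have : geoPt P k ∈ T'.image (geoPt P) := e' ▸ Finset.mem_image_of_mem _ hk
      obtain ⟨l, hl, hlk⟩ := Finset.mem_image.1 this
      have := hinj l (Finset.mem_range.1 (h.sub T' hT' hl)) k
        (Finset.mem_range.1 (h.sub S hS' hk)) hlk
      exact this ▸ hl
    · intro hk
      have : geoPt P k ∈ S.image (geoPt P) := e' ▸ Finset.mem_image_of_mem _ hk
      obtain ⟨l, hl, hlk⟩ := Finset.mem_image.1 this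
      have := hinj l (Finset.mem_range.1 (h.sub S hS' hl)) k
        (Finset.mem_range.1 (h.sub T' hT' hk)) hlk
      exact this ▸ hl


theorem CfgC.le_T {n : ℕ} {P : ℕ → Pt} {F : Finset (Finset ℕ)} (h : CfgC n P F) :
    F.card ≤ T n :=
  le_csSup (geo_sizes_bddAbove n) h.mem_sizes

/-- one more point -/
theorem sizes_succ {n k : ℕ} (h : k ∈ sizes n) : k ∈ sizes (n + 1) := by
  classical
  obtain ⟨P, hP, F, hF, hk⟩ := h
  obtain ⟨x, hx⟩ := Infinite.exists_notMem_finset P
  refine ⟨insert x P, by rw [Finset.card_insert_of_notMem hx, hP], F, ⟨?_, hF.2⟩, hk⟩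
  intro t ht
  have := hF.1 t ht
  exact ⟨this.1.trans (Finset.subset_insert x P), this.2⟩

theorem sizes_nonempty (n : ℕ) : (sizes n).Nonempty := by
  obtain ⟨P, -, hP⟩ := Infinite.exists_superset_card_eq (∅ : Finset E3) n (by simp)
  exact ⟨0, P, hP, ∅, ⟨by simp, by simp⟩, rfl⟩

theorem T_mem (n : ℕ) : T n ∈ sizes n := Nat.sSup_mem (sizes_nonempty n) (geo_sizes_bddAbove n)

theorem T_succ (n : ℕ) : T n ≤ T (n + 1) :=
  le_csSup (geo_sizes_bddAbove (n + 1)) (sizes_succ (T_mem n))

theorem T_mono : Monotone T := monotone_nat_of_le_succ T_succ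

theorem T_isGreatest (n : ℕ) : IsGreatest (sizes n) (T n) :=
  ⟨T_mem n, fun _ hk => le_csSup (geo_sizes_bddAbove n) hk⟩

end Pool.Agent.HCYC
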