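import Pool.Agent.HCYC.Defs
import Pool.Agent.HCYC.Fam

/-! The cyclic family: the triangles are not degenerate, the points are different
(MP_a19305_co). -/

set_option autoImplicit false

namespace Pool.Agent.HCYC

open Pool.Agent.H42K

/-- the smallness of `q` -/
def Sm (m : ℕ) (q : ℝ) : Prop := 0 < q ∧ 1000 * ((m : ℝ) + 1) * q ≤ 1

theorem Sm.le {m : ℕ} {q : ℝ} (h : Sm m q) : q ≤ 1 / 1000 := by
  obtain ⟨h1, h2⟩ := h
  have : (0 : ℝ) ≤ m := by positivity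
  have h3 : 0 ≤ (m : ℝ) * q := by positivity
  nlinarith

theorem c1_pos (m : ℕ) {q : ℝ} (hq : 0 < q) (k : ℕ) : 0 < c1 m q k := by
  unfold c1; positivity

theorem c2_pos {q : ℝ} (hq : 0 < q) (k : ℕ) : 0 < c2 q k := by
  unfold c2; positivity

theorem c1_le {m : ℕ} {q : ℝ} (h : Sm m q) {k : ℕ} (hk : k < m) : c1 m q k ≤ q := by
  have h1 := h.le
  unfold c1
  calc q ^ (6 * (m - k) - 1) ≤ q ^ 1 := pow_le_pow_of_le_one h.1.le (by linarith) (by omega)
    _ = q := pow_one q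

theorem c2_le {m : ℕ} {q : ℝ} (h : Sm m q) (k : ℕ) : c2 q k ≤ q := by
  have h1 := h.le
  unfold c2
  calc q ^ (6 * k + 1) ≤ q ^ 1 := pow_le_pow_of_le_one h.1.le (by linarith) (by omega)
    _ = q := pow_one q

theorem tau_abs {m k : ℕ} (hk : k < m) : |tau m k| ≤ 3 * m + 1 := by
  have h1 : (k : ℝ) + 1 ≤ m := by exact_mod_cast hk
  have h2 : (0 : ℝ) ≤ k := by positivity
  unfold tau
  rw [abs_le]
  constructor <;> linarith

theorem val_lab {m : ℕ} (q : ℝ) (a0 a1 a2 b : ℝ) {e k : ℕ} (hk : k < m) :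
    val m q a0 a1 a2 b (m * e + k) = if e = 0 then ev m q a0 a1 a2 b k
      else if e = 1 then ev m q a1 a2 a0 b k else ev m q a2 a0 a1 b k := by
  unfold val
  rw [div_lab hk, mod_lab hk]

/-- the values at the labels of the corners, seen from the corner `e` -/
theorem exists_rot (m : ℕ) (q : ℝ) {e : ℕ} (he : e < 3) (x y z b : ℝ) :
    ∃ a0 a1 a2 : ℝ, (∀ k, k < m → val m q a0 a1 a2 b (m * e + k) = ev m q x y z b k) ∧
      (∀ k, k < m → val m q a0 a1 a2 b (m * ((e + 1) % 3) + k) = ev m q y z x b k) ∧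
      (∀ k, k < m → val m q a0 a1 a2 b (m * ((e + 2) % 3) + k) = ev m q z x y b k) := by
  interval_cases e
  · refine ⟨x, y, z, fun k hk => ?_, fun k hk => ?_, fun k hk => ?_⟩ <;>
      (rw [val_lab q _ _ _ _ hk]; norm_num)
  · refine ⟨z, x, y, fun k hk => ?_, fun k hk => ?_, fun k hk => ?_⟩ <;>
      (rw [val_lab q _ _ _ _ hk]; norm_num)
  · refine ⟨y, z, x, fun k hk => ?_, fun k hk => ?_, fun k hk => ?_⟩ <;>
      (rw [val_lab q _ _ _ _ hk]; norm_num)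

/-- the form which is zero at the third vertex, the numbers -/
theorem one_sub_pos {q u v : ℝ} (hq : q ≤ 1 / 1000) (hu : 0 < u) (hv : 0 < v) (hu1 : u ≤ q)
    (hv1 : v ≤ q) : 0 < 1 - u * v := by
  have : u * v ≤ 1 / 1000 * (1 / 1000) :=
    mul_le_mul (hu1.trans hq) (hv1.trans hq) hv.le (by norm_num)
  linarith

/-- the numbers for the form which is zero at `(e, a)`: here `ua, ub` are the coordinates of the
two points of the corner, `w` the one of the third point -/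
theorem num_ab {m : ℕ} {q s ta tb tr' ua ub w : ℝ} (h : Sm m q) (hs : s = 1 ∨ s = -1)
    (hta : |ta| ≤ 3 * m + 1) (htr : |tr'| ≤ 3 * m + 1) (hd : 6 ≤ s * (tb - ta))
    (hua : 0 < ua) (hub : 0 < ub) (hw : 0 < w) (hua1 : ua ≤ q) (hw1 : w ≤ q) :
    0 < -(s * ta + 12 * ((m : ℝ) + 1) * ua) + 12 * ((m : ℝ) + 1) * ub + s * tb ∧
    0 < 12 * ((m : ℝ) + 1) + -(s * ta + 12 * ((m : ℝ) + 1) * ua) * w + s * tr' := by
  have hm : (0 : ℝ) ≤ m := by positivity
  have hK : 0 < 12 * ((m : ℝ) + 1) := by positivity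
  have h1 : 12 * ((m : ℝ) + 1) * ua ≤ 12 / 1000 := by
    have h2 := h.2
    have h3 : 12 * ((m : ℝ) + 1) * ua ≤ 12 * ((m : ℝ) + 1) * q :=
      mul_le_mul_of_nonneg_left hua1 hK.le
    linarith
  have h1' : 0 < 12 * ((m : ℝ) + 1) * ua := by positivity
  have h2 : 0 < 12 * ((m : ℝ) + 1) * ub := by positivity
  refine ⟨by linarith, ?_⟩
  have hsta : s * ta ≤ 3 * m + 1 := by
    rcases hs with rfl | rfl
    · linarith [le_abs_self ta]
    · linarith [neg_abs_le ta]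
  have hstr : -(3 * (m : ℝ) + 1) ≤ s * tr' := by
    rcases hs with rfl | rfl
    · linarith [neg_abs_le tr']
    · linarith [le_abs_self tr']
  have h4 : (s * ta + 12 * ((m : ℝ) + 1) * ua) * w ≤ 1 := by
    have h5 : s * ta + 12 * ((m : ℝ) + 1) * ua ≤ 3 * m + 2 := by linarith
    have h6 : (s * ta + 12 * ((m : ℝ) + 1) * ua) * w ≤ (3 * m + 2) * w :=
      mul_le_mul_of_nonneg_right h5 hw.le
    have h7 : (3 * (m : ℝ) + 2) * w ≤ (3 * m + 2) * q := mul_le_mul_of_nonneg_left hw1 (by linarith)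
    have h8 := h.2
    have h9 : 0 ≤ (m : ℝ) * q := mul_nonneg hm h.1.le
    nlinarith [h.1]
  linarith

theorem nd_at {m : ℕ} {q : ℝ} (h : Sm m q) {e a b : ℕ} (he : e < 3) (hab : a ≠ b) (ha : a < m)
    (hb : b < m) {r : ℕ} (hr : r < m) (j : ℕ) (hj : j = (e + 1) % 3 ∨ j = (e + 2) % 3) :
    ∃ a0 a1 a2 c : ℝ, val m q a0 a1 a2 c (m * e + a) = 0 ∧
      0 < val m q a0 a1 a2 c (m * e + b) ∧ 0 < val m q a0 a1 a2 c (m * j + r) := by
  obtain ⟨s, hs, hd⟩ : ∃ s : ℝ, (s = 1 ∨ s = -1) ∧ 6 ≤ s * (tau m b - tau m a) := by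
    rcases Nat.lt_or_gt_of_ne hab with h1 | h1
    · refine ⟨1, Or.inl rfl, ?_⟩
      have : (a : ℝ) + 1 ≤ b := by exact_mod_cast h1
      unfold tau; linarith
    · refine ⟨-1, Or.inr rfl, ?_⟩
      have : (b : ℝ) + 1 ≤ a := by exact_mod_cast h1
      unfold tau; linarith
  rcases hj with rfl | rfl
  · obtain ⟨a0, a1, a2, v0, v1, v2⟩ := exists_rot m q he
      (-(s * tau m a + 12 * ((m : ℝ) + 1) * c1 m q a)) (12 * ((m : ℝ) + 1)) 0 s
    have hn := num_ab h hs (tau_abs ha) (tau_abs hr) hd (c1_pos m h.1 a) (c1_pos m h.1 b)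
      (c2_pos h.1 r) (c1_le h ha) (c2_le h r)
    refine ⟨a0, a1, a2, s, ?_, ?_, ?_⟩
    · rw [v0 a ha]; unfold ev; ring
    · rw [v0 b hb]; unfold ev
      linarith [hn.1]
    · rw [v1 r hr]; unfold ev
      linarith [hn.2]
  · obtain ⟨a0, a1, a2, v0, v1, v2⟩ := exists_rot m q he
      (-(s * tau m a + 12 * ((m : ℝ) + 1) * c2 q a)) 0 (12 * ((m : ℝ) + 1)) s
    have hn := num_ab h hs (tau_abs ha) (tau_abs hr) hd (c2_pos h.1 a) (c2_pos h.1 b)
      (c1_pos m h.1 r) (c2_le h a) (c1_le h hr)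
    refine ⟨a0, a1, a2, s, ?_, ?_, ?_⟩
    · rw [v0 a ha]; unfold ev; ring
    · rw [v0 b hb]; unfold ev
      linarith [hn.1]
    · rw [v2 r hr]; unfold ev
      linarith [hn.2]

theorem nd_third {m : ℕ} {q : ℝ} (h : Sm m q) {e a b : ℕ} (he : e < 3) (ha : a < m)
    (hb : b < m) {r : ℕ} (hr : r < m) (j : ℕ) (hj : j = (e + 1) % 3 ∨ j = (e + 2) % 3) :
    ∃ a0 a1 a2 c : ℝ, val m q a0 a1 a2 c (m * j + r) = 0 ∧
      0 < val m q a0 a1 a2 c (m * e + a) ∧ 0 < val m q a0 a1 a2 c (m * e + b) := by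
  rcases hj with rfl | rfl
  · obtain ⟨a0, a1, a2, v0, v1, v2⟩ := exists_rot m q he 1 (-c2 q r) 0 0
    refine ⟨a0, a1, a2, 0, ?_, ?_, ?_⟩
    · rw [v1 r hr]; unfold ev; ring
    · rw [v0 a ha]; unfold ev
      have := one_sub_pos h.le (c2_pos h.1 r) (c1_pos m h.1 a) (c2_le h r) (c1_le h ha)
      linarith
    · rw [v0 b hb]; unfold ev
      have := one_sub_pos h.le (c2_pos h.1 r) (c1_pos m h.1 b) (c2_le h r) (c1_le h hb)
      linarith
  · obtain ⟨a0, a1, a2, v0, v1, v2⟩ := exists_rot m q he 1 0 (-c1 m q r) 0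
    refine ⟨a0, a1, a2, 0, ?_, ?_, ?_⟩
    · rw [v2 r hr]; unfold ev; ring
    · rw [v0 a ha]; unfold ev
      have := one_sub_pos h.le (c1_pos m h.1 r) (c2_pos h.1 a) (c1_le h hr) (c2_le h a)
      linarith
    · rw [v0 b hb]; unfold ev
      have := one_sub_pos h.le (c1_pos m h.1 r) (c2_pos h.1 b) (c1_le h hr) (c2_le h b)
      linarith

/-- **the triangles are not degenerate** -/
theorem F_nd {m : ℕ} {q : ℝ} (h : Sm m q) : ∀ T ∈ F m, ∀ k ∈ T, ∃ f : Pt,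
    ap f (pt m q k) = 0 ∧ ∀ t ∈ T, t ≠ k → 0 < ap f (pt m q t) := by
  intro T hT x hx
  obtain ⟨e, k, l, he, hkl, hl, rfl⟩ := mem_F.1 hT
  have hk : k < m := hkl.trans hl
  obtain ⟨j, r, hj, hr, e3⟩ : ∃ j r, (j = (e + 1) % 3 ∨ j = (e + 2) % 3) ∧ r < m ∧
      third m e k l = m * j + r := by
    rcases third_spec he hkl hl with ⟨r, h1, h2⟩ | ⟨r, h0, h1, h2⟩
    · exact ⟨_, r, Or.inr rfl, by omega, h2⟩
    · exact ⟨_, r, Or.inl rfl, h0, h2⟩
  simp only [tr, Finset.mem_insert, Finset.mem_singleton] at hx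
  rcases hx with rfl | rfl | rfl
  · obtain ⟨a0, a1, a2, c, z0, z1, z2⟩ := nd_at h he hkl.ne hk hl hr j hj
    refine ⟨fm a0 a1 a2 c, by rw [ap_fm]; exact z0, ?_⟩
    intro t ht hne
    rw [ap_fm]
    simp only [tr, Finset.mem_insert, Finset.mem_singleton] at ht
    rcases ht with rfl | rfl | rfl
    · exact absurd rfl hne
    · exact z1
    · rw [e3]; exact z2
  · obtain ⟨a0, a1, a2, c, z0, z1, z2⟩ := nd_at h he hkl.ne' hl hk hr j hj
    refine ⟨fm a0 a1 a2 c, by rw [ap_fm]; exact z0, ?_⟩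
    intro t ht hne
    rw [ap_fm]
    simp only [tr, Finset.mem_insert, Finset.mem_singleton] at ht
    rcases ht with rfl | rfl | rfl
    · exact z1
    · exact absurd rfl hne
    · rw [e3]; exact z2
  · obtain ⟨a0, a1, a2, c, z0, z1, z2⟩ := nd_third h he hk hl hr j hj
    refine ⟨fm a0 a1 a2 c, by rw [ap_fm, e3]; exact z0, ?_⟩
    intro t ht hne
    rw [ap_fm]
    simp only [tr, Finset.mem_insert, Finset.mem_singleton] at ht
    rcases ht with rfl | rfl | rfl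
    · exact z1
    · exact z2
    · exact absurd rfl hne

/-- **the points are different** -/
theorem pt_inj {m : ℕ} {q : ℝ} (h : Sm m q) : ∀ L < 3 * m, ∀ L' < 3 * m, L ≠ L' →
    ∃ f : Pt, ap f (pt m q L) = 0 ∧ ap f (pt m q L') ≠ 0 := by
  intro L hL L' hL' hne
  have hm : 0 < m := by omega
  obtain ⟨e, k, he, hk, rfl⟩ : ∃ e k, e < 3 ∧ k < m ∧ L = m * e + k :=
    ⟨L / m, L % m, (Nat.div_lt_iff_lt_mul hm).2 hL, Nat.mod_lt _ hm, (Nat.div_add_mod L m).symm⟩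
  obtain ⟨e', k', he', hk', rfl⟩ : ∃ e k, e < 3 ∧ k < m ∧ L' = m * e + k :=
    ⟨L' / m, L' % m, (Nat.div_lt_iff_lt_mul hm).2 hL', Nat.mod_lt _ hm,
      (Nat.div_add_mod L' m).symm⟩
  have hcases : e' = e ∨ e' = (e + 1) % 3 ∨ e' = (e + 2) % 3 := by omega
  rcases hcases with rfl | h1 | h1
  · have hkk : k ≠ k' := fun hh => hne (by rw [hh])
    obtain ⟨a0, a1, a2, v0, v1, v2⟩ := exists_rot m q he (-tau m k) 0 0 1
    refine ⟨fm a0 a1 a2 1, by rw [ap_fm, v0 k hk]; unfold ev; ring, ?_⟩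
    rw [ap_fm, v0 k' hk']
    unfold ev tau
    intro hh
    apply hkk
    have : (k : ℝ) = k' := by linarith
    exact_mod_cast this
  · rw [h1]
    obtain ⟨a0, a1, a2, v0, v1, v2⟩ := exists_rot m q he (-c1 m q k) 1 0 0
    refine ⟨fm a0 a1 a2 0, by rw [ap_fm, v0 k hk]; unfold ev; ring, ?_⟩
    rw [ap_fm, v1 k' hk']
    have := one_sub_pos h.le (c1_pos m h.1 k) (c2_pos h.1 k') (c1_le h hk) (c2_le h k')
    unfold ev
    intro hh
    linarith
  · rw [h1]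
    obtain ⟨a0, a1, a2, v0, v1, v2⟩ := exists_rot m q he (-c2 q k) 0 1 0
    refine ⟨fm a0 a1 a2 0, by rw [ap_fm, v0 k hk]; unfold ev; ring, ?_⟩
    rw [ap_fm, v2 k' hk']
    have := one_sub_pos h.le (c2_pos h.1 k) (c1_pos m h.1 k') (c2_le h k) (c1_le h hk')
    unfold ev
    intro hh
    linarith

/-- **the configuration**, given the separation of any two triangles -/
theorem cfg_of_sep {m : ℕ} {q : ℝ} (h : Sm m q)
    (hs : ∀ S ∈ F m, ∀ T ∈ F m, S ≠ T → SepV m q S T) : CfgC (3 * m) (pt m q) (F m) where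
  sub := F_sub
  card := F_card3
  inter := F_inter
  sep := fun S hS T hT hne => (hs S hS T hT hne).sep
  nd := F_nd h
  pos := fun k _ => pt_pos m h.1 k
  inj := pt_inj h

/-- **the bound**, given the separation of any two triangles -/
theorem T_of_sep {m : ℕ} {q : ℝ} (h : Sm m q)
    (hs : ∀ S ∈ F m, ∀ T ∈ F m, S ≠ T → SepV m q S T) : 3 * m * (m - 1) ≤ 2 * T (3 * m) := by
  have h1 := (cfg_of_sep h hs).le_T
  have h2 := card_F m
  omega

end Pool.Agent.HCYC
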